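import Pool.Agent.H.MP_f4da35_lc.B
import Pool.Agent.Lib.helper21.Fn

set_option autoImplicit false

namespace Pool.Agent.H.MP_f4da35_lc

open Pool.Agent.Lib.helper21.Fn
open scoped Classical

def S0 : Sys where
  O e t := {x | ∃ y s, y :: s <:+ t ∧ ∃ u ≤ y, att e (fun i => decide (i ∈ y :: s)) u x = 2}
  mono _ _ _ _ := fun ⟨y, s, h, h'⟩ => ⟨y, s, h.trans (List.suffix_cons _ _), h'⟩

theorem main : ∃ f : ℕ → ℕ → Fin 3, ∀ G : ℕ → ℕ → Bool, ∃ H : Om, {m | H m = true}.Infinite ∧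
    (∃ c, ∀ y z, H y = true → H z = true → y < z → G y z = c) ∧
    ∀ X : Om, {m | X m = true}.Infinite → TuringReducible (orc X) (orc H) →
      ¬ ∃ j, ∀ a b, X a = true → X b = true → a < b → f a b = j := by
  obtain ⟨g⟩ := exists_gen S0
  refine ⟨g.f, fun G => ?_⟩
  obtain ⟨Φ, hΦ⟩ := exists_frame g G
  obtain ⟨i, τ, h1, h2, h3, h4⟩ := Φ.chain
  obtain ⟨c, hc⟩ := hΦ i
  let H : Om := fun y => decide (∃ k, y ∈ τ k)
  have h5 : {m | H m = true}.Infinite := fun h => by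
    have k1 : (τ (h.toFinset.card + 1)).Nodup := (h3 _).imp fun h => h.2.ne'
    have k2 := Finset.card_le_card (s := (τ (h.toFinset.card + 1)).toFinset) (t := h.toFinset)
      fun y hy => h.mem_toFinset.2 (decide_eq_true ⟨_, List.mem_toFinset.1 hy⟩)
    rw [List.toFinset_card_of_nodup k1] at k2
    have := h2 (h.toFinset.card + 1)
    omega
  have h6 : ∀ k y s, y :: s <:+ τ k → ∀ z ≤ y, H z = decide (z ∈ y :: s) := fun k y s h z hz => by
    refine decide_eq_decide.2 ⟨fun ⟨l, hl⟩ => ?_, fun hz => ⟨k, h.subset hz⟩⟩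
    obtain ⟨r, hr⟩ := h.trans (h1 k _ (le_max_left k l))
    have k1 := (h1 l _ (le_max_right k l)).subset hl
    have k2 := h3 (max k l)
    rw [← hr] at k1 k2
    exact (List.mem_append.1 k1).resolve_left fun k3 =>
      ((List.pairwise_append.1 k2).2.2 z k3 y List.mem_cons_self).2.not_ge hz
  have h7 : ∀ y, H y = true → ∃ k s, y :: s <:+ τ k := fun y hy => by
    obtain ⟨k, hk⟩ := of_decide_eq_true hy
    obtain ⟨r, s, hr⟩ := List.append_of_mem hk
    exact ⟨k, s, r, hr.symm⟩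
  refine ⟨H, h5, ⟨c, fun y z hy hz hyz => ?_⟩, fun X hX hr ⟨j, hj⟩ => ?_⟩
  · obtain ⟨k, s, h⟩ := h7 z hz
    have k1 := (of_decide_eq_true (h6 k z s h y hyz.le ▸ hy))
    exact hc y z ((List.pairwise_cons.1 ((h3 k).sublist h.sublist)).1 y
      ((List.mem_cons.1 k1).resolve_left hyz.ne)).1
  obtain ⟨e, he⟩ := complete H _ hr
  have h8 : ∀ k, ∀ x ∈ S0.O e (τ k), X x = true := fun k x ⟨y, s, k1, u, k2, k3⟩ => by
    rw [← att_congr e (fun z hz => h6 k y s k1 z hz.le) k2] at k3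
    have := (he x).2 u (by omega)
    cases h : X x
    · simp [h, k3] at this
    · rfl
  rcases h4 e with h | ⟨k, j1, j2, k1, ⟨a, ha, b, hb, k2, k3⟩, a', ha', b', hb', k4, k5⟩
  · refine hX (h.subset fun x hx => ?_)
    obtain ⟨u, hu⟩ := (he x).1
    obtain ⟨y, hy, k1⟩ := h5.exists_gt u
    obtain ⟨k, s, k2⟩ := h7 y hy
    refine Set.mem_iUnion.2 ⟨k, y, s, k2, u, k1.le, ?_⟩
    rw [← att_congr e (fun z hz => h6 k y s k2 z hz.le) k1.le, (he x).2 u hu,
      show X x = true from hx]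
    rfl
  · exact k1 ((k3 ▸ hj a b (h8 k a ha) (h8 k b hb) k2).trans
      (k5 ▸ hj a' b' (h8 k a' ha') (h8 k b' hb') k4).symm)

theorem hom {g : Finset ℕ → Fin 2} {H : Om}
    (h : ∃ c, ∀ y z, H y = true → H z = true → y < z → decide (g {y, z} = 0) = c) :
    ∃ col, ∀ s : Finset ℕ, (∀ x ∈ s, H x = true) → s.card = 2 → g s = col := by
  obtain ⟨c, h⟩ := h
  refine ⟨cond c 0 1, fun s h1 h2 => ?_⟩
  obtain ⟨y, z, h3, rfl⟩ : ∃ y z, y < z ∧ s = {y, z} := by
    obtain ⟨y, z, h3, rfl⟩ := Finset.card_eq_two.1 h2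
    rcases h3.lt_or_gt with h3 | h3
    · exact ⟨y, z, h3, rfl⟩
    · exact ⟨z, y, h3, Finset.pair_comm _ _⟩
  rw [← h y z (h1 _ (by simp)) (h1 _ (by simp)) h3]
  generalize g {y, z} = v
  revert v
  decide

end Pool.Agent.H.MP_f4da35_lc
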