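import Pool.Agent.Lib.helper21.Der

set_option autoImplicit false

namespace Pool.Agent.H.MP_f4da35_lc

open Filter Pool.Agent.Lib.helper21.Der
open scoped Classical

structure Sys where
  O : ℕ → List ℕ → Set ℕ
  mono : ∀ e t x, O e t ⊆ O e (x :: t)

namespace Sys

variable (S : Sys)

def Pr (e a b : ℕ) (t : List ℕ) : Prop := a ∈ S.O e t ∧ b ∈ S.O e t

def L (e : ℕ) (t : List ℕ) : Set ℕ := {a | D0 (fun t => a ∈ S.O e t) t}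

def Stop (e : ℕ) (t : List ℕ) : Prop := ∀ᶠ x in U0, ¬ S.L e (x :: t) ⊆ S.L e t

noncomputable def φ (e : ℕ) (t : List ℕ) (x : ℕ) : ℕ :=
  if h : ∃ a ∈ S.L e (x :: t), a ∉ S.L e t then h.choose else 0

def T (e n : ℕ) (t : List ℕ) : Prop := (S.L e t).Infinite ∨ S.Stop e t ∧ ∃ x ∈ S.O e t, n ≤ x

def Fr (e : ℕ) (t : List ℕ) : Prop := ∃ n, ¬ D0 (S.T e n) t

def B (t : List ℕ) : Set ℕ := {x | ∀ e ≤ t.length, (¬ S.Stop e t → S.L e (x :: t) ⊆ S.L e t) ∧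
  ∀ H : S.Fr e t, ¬ D0 (S.T e (Nat.find H)) (x :: t)}

theorem B_mem (t : List ℕ) : S.B t ∈ U0 := by
  refine (eventually_all_finite (Set.finite_Iic t.length)).2 fun e _ => Eventually.and ?_ ?_
  · by_cases h : S.Stop e t
    · exact Eventually.of_forall fun _ h' => absurd h h'
    · exact (Ultrafilter.eventually_not.2 h).mono fun _ h _ => not_not.1 h
  · exact eventually_all.2 fun H => Ultrafilter.eventually_not.2 fun h => Nat.find_spec H (D0.step' h)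

theorem φ_ev {e : ℕ} {t : List ℕ} (h : S.Stop e t) (m : ℕ) :
    ∀ᶠ x in U0, S.φ e t x ∈ S.L e (x :: t) ∧ m < S.φ e t x := by
  have h1 : ∀ᶠ x in U0, S.φ e t x ∈ S.L e (x :: t) ∧ S.φ e t x ∉ S.L e t := h.mono fun x hx => by
    have h2 := Set.not_subset.1 hx
    rw [φ, dif_pos h2]
    exact h2.choose_spec
  have h2 : ∀ᶠ x in U0, ∀ a ∈ Set.Iic m, S.φ e t x ≠ a := by
    refine (eventually_all_finite (Set.finite_Iic m)).2 fun a _ =>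
      Ultrafilter.eventually_not.2 fun h3 => ?_
    obtain ⟨x, h4, h5⟩ := (h1.and h3).exists
    exact h4.2 (h5 ▸ D0.step' ((h1.and h3).mono fun x hx => hx.2 ▸ hx.1.1))
  exact (h1.and h2).mono fun x hx => ⟨hx.1.1, not_le.1 fun h => hx.2 _ h rfl⟩

theorem mono' {e : ℕ} {t t' : List ℕ} (h : t <:+ t') : S.O e t ⊆ S.O e t' := by
  obtain ⟨s, rfl⟩ := h
  induction s with
  | nil => exact le_rfl
  | cons x s ih => exact ih.trans (S.mono e _ x)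

end Sys

abbrev Ix := ℕ × ℕ × ℕ × List ℕ

/-- A generic colouring together with a countable family of large sets. -/
structure Gen (S : Sys) where
  f : ℕ → ℕ → Fin 3
  𝒜 : Ix → Set ℕ
  sub : ∀ e a b t, ∀ x ∈ 𝒜 (e, a, b, t), x ∈ S.B t ∧ a < x ∧
    (S.Stop e t → S.φ e t x ∈ S.L e (x :: t) ∧ a < S.φ e t x)
  tr : ∀ F : Set (Set ℕ), (∀ i, 𝒜 i ∈ F) → (∀ A ∈ F, ∀ B, A ⊆ B → B ∈ F) → ∀ e a b t,
    (D0 (S.T e a) t → DF F (S.T e a) t) ∧ (D0 (S.Pr e a b) t → DF F (S.Pr e a b) t)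
  g1 : ∀ (θ : ℕ → Fin 3) (I : Finset Ix), ∃ x, ∀ i ∈ I, x ∈ 𝒜 i ∧
    (S.Stop i.1 i.2.2.2 → f i.2.1 (S.φ i.1 i.2.2.2 x) = θ i.2.1)
  g2 : ∀ e t j, (S.L e t).Infinite → ∃ a ∈ S.L e t, ∃ b ∈ S.L e t, a < b ∧ f a b = j

theorem exists_gen (S : Sys) : Nonempty (Gen S) := by
  choose A1 h1 h2 using fun e n => transfer (S.T e n)
  choose A2 h3 h4 using fun e a b => transfer (S.Pr e a b)
  let 𝒜 : Ix → Set ℕ := fun i => {x | (x ∈ S.B i.2.2.2 ∧ i.2.1 < x ∧ (S.Stop i.1 i.2.2.2 →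
    S.φ i.1 i.2.2.2 x ∈ S.L i.1 (x :: i.2.2.2) ∧ i.2.1 < S.φ i.1 i.2.2.2 x)) ∧
    x ∈ A1 i.1 i.2.1 i.2.2.2 ∧ x ∈ A2 i.1 i.2.1 i.2.2.1 i.2.2.2}
  have h5 : ∀ i, 𝒜 i ∈ U0 := fun i => inter_mem (inter_mem (S.B_mem _) (inter_mem
    (Nat.hyperfilter_le_atTop (eventually_gt_atTop _)) (eventually_imp_distrib_left.2
      fun h => S.φ_ev h _))) (inter_mem (h1 _ _ _) (h3 _ _ _ _))
  obtain ⟨c, hc⟩ := pattern (K := Finset Ix × List (Fin 3) × Ix) (fun k Y => (∃ x, ∀ i ∈ k.1,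
    x ∈ 𝒜 i ∧ (S.Stop i.1 i.2.2.2 → S.φ i.1 i.2.2.2 x ∈ Y)) ∧ ((S.L k.2.2.1 k.2.2.2.2.2).Infinite →
      ∃ b ∈ Y, b ∈ S.L k.2.2.1 k.2.2.2.2.2 ∧ k.2.2.2.1 < b)) fun k m => by
    obtain ⟨x, hx⟩ := ((eventually_all_finset k.1).2 fun i _ => Eventually.and (h5 i)
      (eventually_imp_distrib_left.2 fun h : S.Stop i.1 i.2.2.2 => S.φ_ev h m)).exists
    obtain ⟨b, hb⟩ : ∃ b, m < b ∧ ((S.L k.2.2.1 k.2.2.2.2.2).Infinite →
        b ∈ S.L k.2.2.1 k.2.2.2.2.2 ∧ k.2.2.2.1 < b) := by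
      by_cases h : (S.L k.2.2.1 k.2.2.2.2.2).Infinite
      · obtain ⟨b, hb, h6⟩ := h.exists_gt (m + k.2.2.2.1)
        exact ⟨b, by omega, fun _ => ⟨hb, by omega⟩⟩
      · exact ⟨m + 1, by omega, fun h' => absurd h' h⟩
    refine ⟨insert b ((k.1.filter fun i => S.Stop i.1 i.2.2.2).image fun i => S.φ i.1 i.2.2.2 x),
      ⟨⟨x, fun i hi => ⟨(hx i hi).1, fun h => Finset.mem_insert_of_mem (Finset.mem_image_of_mem _
        (Finset.mem_filter.2 ⟨hi, h⟩))⟩⟩, fun h => ⟨b, Finset.mem_insert_self _ _, hb.2 h⟩⟩,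
      fun y hy => ?_⟩
    rcases Finset.mem_insert.1 hy with rfl | hy
    · exact hb.1
    · obtain ⟨i, hi, rfl⟩ := Finset.mem_image.1 hy
      exact ((hx i (Finset.mem_filter.1 hi).1).2 (Finset.mem_filter.1 hi).2).2
  refine ⟨⟨fun x y => (c y).2.1.getD x 0, 𝒜, fun e a b t x hx => hx.1, fun F k1 k2 e a b t =>
    ⟨h2 e a F (fun t => k2 _ (k1 (e, a, b, t)) _ fun x hx => hx.2.1) t,
      h4 e a b F (fun t => k2 _ (k1 (e, a, b, t)) _ fun x hx => hx.2.2) t⟩, fun θ I => ?_,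
    fun e t j h => ?_⟩⟩
  · obtain ⟨Y, ⟨⟨x, hx⟩, -⟩, hY⟩ := hc (I, (List.range (I.sup (·.2.1) + 1)).map θ, default)
    refine ⟨x, fun i hi => ⟨(hx i hi).1, fun h => ?_⟩⟩
    have : i.2.1 < I.sup (·.2.1) + 1 := Nat.lt_succ_of_le (Finset.le_sup (f := (·.2.1)) hi)
    simp [hY _ ((hx i hi).2 h), this]
  · obtain ⟨a, ha⟩ := h.nonempty
    obtain ⟨Y, ⟨-, k1⟩, hY⟩ := hc (∅, List.replicate (a + 1) j, (e, a, 0, t))
    obtain ⟨b, k2, k3, k4⟩ := k1 h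
    exact ⟨a, ha, b, k3, k4, by simp [hY _ k2]⟩

namespace Gen

variable {S : Sys} (g : Gen S)

def Pos (θ : ℕ → Fin 3) (A : Set ℕ) : Prop := ∀ I : Finset Ix, ∃ x ∈ A, ∀ i ∈ I, x ∈ g.𝒜 i ∧
  (S.Stop i.1 i.2.2.2 → g.f i.2.1 (S.φ i.1 i.2.2.2 x) = θ i.2.1)

def Fl (n : ℕ) (A : Set ℕ) : Prop :=
  ∃ q : ℕ → Fin 3, ∀ θ : ℕ → Fin 3, (∀ x < n, θ x = q x) → g.Pos θ A

def Full (A : Set ℕ) : Prop := ∃ n, g.Fl n A

variable {g}

theorem Full.mono {A B : Set ℕ} (h : g.Full A) (hAB : A ⊆ B) : g.Full B :=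
  let ⟨n, q, h⟩ := h
  ⟨n, q, fun θ hθ I => let ⟨x, hx, h1⟩ := h θ hθ I; ⟨x, hAB hx, h1⟩⟩

theorem Full.nonempty {A : Set ℕ} (h : g.Full A) : A.Nonempty :=
  let ⟨_, q, h⟩ := h
  let ⟨x, hx, _⟩ := h q (fun _ _ => rfl) ∅
  ⟨x, hx⟩

theorem full_univ : g.Full Set.univ :=
  ⟨0, 0, fun θ _ I => let ⟨x, hx⟩ := g.g1 θ I; ⟨x, trivial, hx⟩⟩

theorem Full.union {A B : Set ℕ} (h : g.Full (A ∪ B)) (hA : ¬ g.Full A) : g.Full B := by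
  obtain ⟨n, q, h⟩ := h
  have : ¬ ∀ θ : ℕ → Fin 3, (∀ x < n, θ x = q x) → g.Pos θ A := fun h => hA ⟨n, q, h⟩
  simp only [not_forall, Pos] at this
  obtain ⟨θ0, h1, I, h2⟩ := this
  refine ⟨n + I.sup (·.2.1) + 1, θ0, fun θ hθ J => ?_⟩
  obtain ⟨x, hx, h3⟩ := h θ (fun x hx => (hθ x (by omega)).trans (h1 x hx)) (I ∪ J)
  refine ⟨x, hx.resolve_left fun h4 => h2 ⟨x, h4, fun i hi => ?_⟩,
    fun i hi => h3 i (Finset.mem_union_right _ hi)⟩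
  have : i.2.1 ≤ I.sup (·.2.1) := Finset.le_sup (f := (·.2.1)) hi
  rw [← hθ _ (by omega)]
  exact h3 i (Finset.mem_union_left _ hi)

theorem Full.biUnion {ι : Type} {W : ι → Set ℕ} (s : Finset ι) (h : g.Full (⋃ i ∈ s, W i)) :
    ∃ i ∈ s, g.Full (W i) := by
  induction s using Finset.induction_on with
  | empty => simpa using h.nonempty
  | insert a s _ ih =>
    rw [Finset.set_biUnion_insert] at h
    by_cases h1 : g.Full (W a)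
    · exact ⟨a, Finset.mem_insert_self _ _, h1⟩
    · exact (ih (h.union h1)).imp fun i hi => ⟨Finset.mem_insert_of_mem hi.1, hi.2⟩

variable (g) in
def F : Set (Set ℕ) := {C | ∀ A, g.Full A → g.Full (A ∩ C)}

theorem mem_F (i : Ix) : g.𝒜 i ∈ g.F := fun _ ⟨n, q, h⟩ => ⟨n, q, fun θ hθ I =>
  let ⟨x, hx, h1⟩ := h θ hθ (insert i I)
  ⟨x, ⟨hx, (h1 i (Finset.mem_insert_self _ _)).1⟩, fun j hj => h1 j (Finset.mem_insert_of_mem hj)⟩⟩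

theorem F_mono : ∀ A ∈ g.F, ∀ B, A ⊆ B → B ∈ g.F := fun _ h _ hAB A' h' =>
  (h A' h').mono (Set.inter_subset_inter_right _ hAB)

theorem Fl.col {n : ℕ} {A : Set ℕ} (h : g.Fl n A) (J : Finset Ix) (j : Fin 3) :
    g.Full (A ∩ {x | ∀ i ∈ J, n ≤ i.2.1 → S.Stop i.1 i.2.2.2 →
      g.f i.2.1 (S.φ i.1 i.2.2.2 x) = j}) := by
  obtain ⟨q, h⟩ := h
  refine ⟨n + J.sup (·.2.1) + 1, fun x => if x < n then q x else j, fun θ hθ I => ?_⟩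
  obtain ⟨x, hx, h1⟩ := h θ (fun x hx => (hθ x (by omega)).trans (if_pos hx)) (I ∪ J)
  refine ⟨x, ⟨hx, fun i hi h2 h3 => ?_⟩, fun i hi => h1 i (Finset.mem_union_left _ hi)⟩
  have : i.2.1 ≤ J.sup (·.2.1) := Finset.le_sup (f := (·.2.1)) hi
  rw [(h1 i (Finset.mem_union_right _ hi)).2 h3, hθ _ (by omega)]
  exact if_neg (by omega)

end Gen

end Pool.Agent.H.MP_f4da35_lc
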