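import Pool.Agent.H.MP_f4da35_lc.A

set_option autoImplicit false

namespace Pool.Agent.H.MP_f4da35_lc

open Filter Pool.Agent.Lib.helper21.Der Gen
open scoped Classical

structure Frame {S : Sys} (g : Gen S) where
  N : Bool → ℕ → Set ℕ
  A1 : Set ℕ
  full : g.Full A1
  un : ∀ i A, A ⊆ A1 → g.Full A → ∃ x ∈ A, g.Full (A ∩ N i x)
  cov : ∀ y ∈ A1, ¬ g.Full (A1 \ (N false y ∪ N true y))

namespace Frame

variable {S : Sys} {g : Gen S} (Φ : Frame g)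

def OK (i : Bool) : List ℕ → Prop
  | [] => True
  | x :: t => OK i t ∧ x ∈ S.B t ∧ ∀ y ∈ t, x ∈ Φ.N i y ∧ y < x

def C (i : Bool) (t : List ℕ) (A : Set ℕ) : Prop :=
  Φ.OK i t ∧ (∀ y ∈ t, ∀ z ∈ A, z ∈ Φ.N i y ∧ y < z) ∧ g.Full A ∧ A ⊆ Φ.A1

variable {Φ}

theorem C.shrink {i : Bool} {t : List ℕ} {A A' : Set ℕ} (h : Φ.C i t A) (h1 : A' ⊆ A)
    (h2 : g.Full A') : Φ.C i t A' :=
  ⟨h.1, fun y hy z hz => h.2.1 y hy z (h1 hz), h2, h1.trans h.2.2.2⟩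

theorem gt_F (n : ℕ) : Set.Ioi n ∈ g.F :=
  F_mono _ (mem_F (0, n, 0, [])) _ fun x hx => (g.sub _ _ _ _ x hx).2.1

theorem C.one {i : Bool} {t : List ℕ} {A D : Set ℕ} (h : Φ.C i t A) (hD : D ∈ g.F) :
    ∃ x ∈ A ∩ D, ∃ A' ⊆ A, Φ.C i (x :: t) A' := by
  obtain ⟨x, hx, h1⟩ := Φ.un i ((A ∩ D) ∩ g.𝒜 (0, 0, 0, t)) (fun z hz => h.2.2.2 hz.1.1)
    (mem_F _ _ (hD _ h.2.2.1))
  refine ⟨x, hx.1, _, fun z hz => hz.1.1.1.1, ⟨h.1, (g.sub _ _ _ _ x hx.2).1,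
    fun y hy => h.2.1 y hy x hx.1.1⟩, fun y hy z hz => ?_, gt_F x _ h1,
    fun z hz => h.2.2.2 hz.1.1.1.1⟩
  rcases List.mem_cons.1 hy with rfl | hy
  · exact ⟨hz.1.2, hz.2⟩
  · exact h.2.1 y hy z hz.1.1.1.1

theorem follow {i : Bool} {P : List ℕ → Prop} {t : List ℕ} (hP : DF g.F P t) :
    ∀ A, Φ.C i t A → ∃ s, ∃ A' ⊆ A, Φ.C i (s ++ t) A' ∧ P (s ++ t) ∧ ∀ y ∈ s, y ∈ A := by
  induction hP with
  | of h => exact fun A hA => ⟨[], A, le_rfl, hA, h, by simp⟩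
  | step D hD _ ih =>
    intro A hA
    obtain ⟨x, hx, A', h1, h2⟩ := hA.one hD
    obtain ⟨s, A'', h3, h4, h5, h6⟩ := ih x hx.2 A' h2
    refine ⟨s ++ [x], A'', h3.trans h1, by simpa using h4, by simpa using h5, fun y hy => ?_⟩
    rcases List.mem_append.1 hy with hy | hy
    · exact h1 (h6 y hy)
    · exact List.mem_singleton.1 hy ▸ hx.1

def Has (g : Gen S) (j : Fin 3) (e : ℕ) (t : List ℕ) : Prop :=
  ∃ a ∈ S.O e t, ∃ b ∈ S.O e t, a < b ∧ g.f a b = j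

theorem pr_der {e a b : ℕ} {t : List ℕ} (ha : a ∈ S.L e t) (hb : b ∈ S.L e t) :
    DF g.F (S.Pr e a b) t := (g.tr _ mem_F F_mono e a b t).2
  (D0.and (fun t x h => S.mono e t x h) (fun t x h => S.mono e t x h) ha hb)

theorem run (j : Fin 3) (e : Bool → ℕ) (t : Bool → List ℕ) (A : Set ℕ)
    (hC : ∀ i, Φ.C i (t i) A) (hR : ∀ i, ¬ S.Fr (e i) (t i)) :
    ∃ i s, ∃ A' ⊆ A, Φ.C i (s ++ t i) A' ∧ Has g j (e i) (s ++ t i) := by
  obtain ⟨n, hn⟩ := (hC true).2.2.1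
  let ι := {p : Bool × List ℕ // Φ.OK p.1 (p.2 ++ t p.1) ∧ (∀ y ∈ p.2, y ∈ A) ∧
    S.T (e p.1) n (p.2 ++ t p.1)}
  obtain ⟨Z, hZ⟩ := isCompact_univ.elim_finite_subcover
    (fun p : ι => {χ : ℕ → Bool | ∀ y ∈ p.1.2.toFinset, χ y = p.1.1}) (fun p => by
      simp only [Set.ofPred_forall]
      exact isOpen_biInter_finset fun y _ => (isOpen_discrete {b : Bool | b = p.1.1}).preimage
        (f := fun χ : ℕ → Bool => χ y) (continuous_apply y)) fun χ _ => by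
      obtain ⟨i, hi⟩ : ∃ i, g.Full (A ∩ {y | χ y = i}) := by
        by_cases h : g.Full (A ∩ {y | χ y = true})
        · exact ⟨_, h⟩
        · refine ⟨false, Full.union ((hC true).2.2.1.mono fun y hy => ?_) h⟩
          cases h1 : χ y <;> simp [hy, h1]
      obtain ⟨s, A', -, h2, h3, h4⟩ := follow ((g.tr _ mem_F F_mono (e i) n 0 (t i)).1
        (not_not.1 fun h => hR i ⟨n, h⟩)) _ ((hC i).shrink Set.inter_subset_left hi)
      exact Set.mem_iUnion.2 ⟨⟨(i, s), h2.1, fun y hy => (h4 y hy).1, h3⟩,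
        fun y hy => (h4 y (List.mem_toFinset.1 hy)).2⟩
  have h1 : ∀ p : ι, ∃ x, ¬ (S.L (e p.1.1) (p.1.2 ++ t p.1.1)).Infinite →
      x ∈ S.O (e p.1.1) (p.1.2 ++ t p.1.1) ∧ n ≤ x := fun p => by
    rcases p.2.2.2 with h | ⟨-, x, h⟩
    · exact ⟨0, fun h' => absurd h h'⟩
    · exact ⟨x, fun _ => h⟩
  choose X hX using h1
  have h2 := hn.col (Z.image fun p => (e p.1.1, X p, 0, p.1.2 ++ t p.1.1)) j
  generalize hA : A ∩ {x | ∀ i ∈ Z.image fun p => (e p.1.1, X p, 0, p.1.2 ++ t p.1.1), n ≤ i.2.1 →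
    S.Stop i.1 i.2.2.2 → g.f i.2.1 (S.φ i.1 i.2.2.2 x) = j} = A' at h2
  have h3 : A' ⊆ A := hA ▸ Set.inter_subset_left
  obtain ⟨p, hp, h4⟩ := Full.biUnion (W := fun p : ι => (⋃ y ∈ p.1.2.toFinset,
      Φ.A1 \ (Φ.N false y ∪ Φ.N true y)) ∪ A' ∩ {z | ∀ y ∈ p.1.2, z ∈ Φ.N p.1.1 y}) Z
      (h2.mono fun z hz => by
    obtain ⟨p, hp, h5⟩ := Set.mem_iUnion₂.1 (hZ (Set.mem_univ fun y => decide (z ∈ Φ.N true y)))
    refine Set.mem_iUnion₂.2 ⟨p, hp, or_iff_not_imp_left.2 fun h6 => ⟨hz, fun y hy => ?_⟩⟩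
    have h7 := h5 y (List.mem_toFinset.2 hy)
    have h8 : z ∈ Φ.N false y ∪ Φ.N true y := not_not.1 fun h => h6 (Set.mem_iUnion₂.2
      ⟨y, List.mem_toFinset.2 hy, (hC true).2.2.2 (h3 hz), h⟩)
    rw [← h7]
    by_cases h9 : z ∈ Φ.N true y
    · simp [h9]
    · simpa [h9] using h8)
  replace h4 := gt_F (p.1.2.toFinset.sup id) _ (h4.union fun h => by
    obtain ⟨y, hy, h5⟩ := Full.biUnion _ h
    exact Φ.cov y ((hC true).2.2.2 (p.2.2.1 y (List.mem_toFinset.1 hy))) h5)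
  have h5 : Φ.C p.1.1 (p.1.2 ++ t p.1.1) _ := ⟨p.2.1, fun y hy z hz => by
    rcases List.mem_append.1 hy with hy | hy
    · exact ⟨hz.1.2 y hy, lt_of_le_of_lt (Finset.le_sup (f := id) (List.mem_toFinset.2 hy)) hz.2⟩
    · exact (hC _).2.1 y hy z (h3 hz.1.1), h4, fun z hz => (hC true).2.2.2 (h3 hz.1.1)⟩
  by_cases h6 : (S.L (e p.1.1) (p.1.2 ++ t p.1.1)).Infinite
  · obtain ⟨a, ha, b, hb, h7⟩ := g.g2 _ _ j h6
    obtain ⟨s, A'', k1, k2, k3, -⟩ := follow (pr_der ha hb) _ h5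
    exact ⟨p.1.1, s ++ p.1.2, A'', fun z hz => h3 (k1 hz).1.1, by simpa using k2,
      a, by simpa using k3.1, b, by simpa using k3.2, h7⟩
  · have h7 := (p.2.2.2.resolve_left h6).1
    obtain ⟨x, hx, A'', k1, k2⟩ := h5.one (mem_F (e p.1.1, X p, 0, p.1.2 ++ t p.1.1))
    obtain ⟨k3, k4⟩ := (g.sub _ _ _ _ x hx.2).2.2 h7
    obtain ⟨s, A''', k5, k6, k7, -⟩ := follow (pr_der k3 k3) _ k2
    refine ⟨p.1.1, s ++ x :: p.1.2, A''', fun z hz => h3 (k1 (k5 hz)).1.1, by simpa using k6,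
      X p, S.mono' (by simp [List.suffix_append_of_suffix]) (hX p h6).1, _,
      by simpa using k7.1, k4, ?_⟩
    have k8 := hx.1.1.1
    rw [← hA] at k8
    exact k8.2 _ (Finset.mem_image_of_mem _ hp) (hX p h6).2 h7

variable (Φ) in
structure St where
  t : Bool → List ℕ
  A : Set ℕ
  c : ∀ i, Φ.C i (t i) A

def St.le (p q : St Φ) : Prop := ∀ i, p.t i <:+ q.t i

theorem St.ext' (p : St Φ) (i : Bool) (s : List ℕ) {A : Set ℕ} (h1 : A ⊆ p.A)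
    (h2 : Φ.C i (s ++ p.t i) A) : ∃ q : St Φ, p.le q ∧ q.t i = s ++ p.t i := by
  refine ⟨⟨Function.update p.t i (s ++ p.t i), A, fun k => ?_⟩, fun k => ?_, by simp⟩
  all_goals by_cases h : k = i
  · simpa [h] using h2
  · simpa [h] using (p.c k).shrink h1 h2.2.2.1
  · simp [h]
  · simp [h]

theorem St.grow (p : St Φ) : ∀ m, ∃ q : St Φ, p.le q ∧ ∀ i, m ≤ (q.t i).length
  | 0 => ⟨p, fun _ => List.suffix_refl _, fun _ => Nat.zero_le _⟩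
  | m + 1 => by
    obtain ⟨q, h1, h2⟩ := p.grow m
    obtain ⟨x, -, A, h3, h4⟩ := (q.c true).one (gt_F 0)
    obtain ⟨q1, h5, h6⟩ := q.ext' true [x] h3 h4
    obtain ⟨y, -, A', h7, h8⟩ := (q1.c false).one (gt_F 0)
    obtain ⟨q2, h9, h10⟩ := q1.ext' false [y] h7 h8
    refine ⟨q2, fun i => (h1 i).trans ((h5 i).trans (h9 i)), fun i => ?_⟩
    have := (h5 i).length_le
    have := (h9 i).length_le
    have := h2 i
    cases i
    · simp [h10]; omega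
    · simp [h6] at *; omega

theorem ok_ind {i : Bool} {P : List ℕ → Prop} {t t' : List ℕ} (h : t <:+ t') (hO : Φ.OK i t')
    (h0 : P t) (h1 : ∀ s x, t <:+ s → x ∈ S.B s → P s → P (x :: s)) : P t' := by
  obtain ⟨s, rfl⟩ := h
  induction s with
  | nil => exact h0
  | cons x s ih => exact h1 _ x (List.suffix_append _ _) hO.2.1 (ih hO.1)

theorem der_anti {e m n : ℕ} {t : List ℕ} (h : m ≤ n) (h1 : D0 (S.T e n) t) : D0 (S.T e m) t :=
  DF.mono (fun _ h => h.imp_right fun ⟨h2, x, h3, h4⟩ => ⟨h2, x, h3, by omega⟩) h1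

theorem fr_ext {i : Bool} {e n : ℕ} {t t' : List ℕ} (h : t <:+ t') (hO : Φ.OK i t')
    (he : e ≤ t.length) (h0 : ¬ D0 (S.T e n) t) : ¬ D0 (S.T e n) t' :=
  ok_ind (P := fun t => ¬ D0 (S.T e n) t) h hO h0 fun s x hs hx h1 h2 =>
    (hx e (he.trans hs.length_le)).2 ⟨n, h1⟩ (der_anti (Nat.find_min' _ h1) h2)

def Good (g : Gen S) (e : ℕ) (t : List ℕ) : Prop :=
  (e ≤ t.length ∧ S.Fr e t) ∨ ∃ j k, j ≠ k ∧ Has g j e t ∧ Has g k e t

theorem Has.mono {j : Fin 3} {e : ℕ} {t t' : List ℕ} (h : Has g j e t) (h1 : t <:+ t') :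
    Has g j e t' :=
  let ⟨a, ha, b, hb, h⟩ := h
  ⟨a, S.mono' h1 ha, b, S.mono' h1 hb, h⟩

theorem St.req (p : St Φ) (e : Bool → ℕ) (m : ℕ) :
    ∃ q : St Φ, p.le q ∧ (∀ i, m ≤ (q.t i).length) ∧ ∃ i, Good g (e i) (q.t i) := by
  have h1 : ∀ j (p : St Φ), ∃ q : St Φ, p.le q ∧ ∃ i, ∀ r : St Φ, q.le r →
      e i ≤ (q.t i).length → S.Fr (e i) (r.t i) ∨ Has g j (e i) (r.t i) := fun j p => by
    by_cases h : ∃ i, S.Fr (e i) (p.t i)
    · obtain ⟨i, n, h⟩ := h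
      exact ⟨p, fun _ => List.suffix_refl _, i, fun r hr he =>
        Or.inl ⟨n, fr_ext (hr i) (r.c i).1 he h⟩⟩
    · obtain ⟨i, s, A, h2, h3, h4⟩ := run j e p.t p.A p.c (not_exists.1 h)
      obtain ⟨q, h5, h6⟩ := p.ext' i s h2 h3
      exact ⟨q, h5, i, fun r hr _ => Or.inr ((h6 ▸ h4).mono (hr i))⟩
  obtain ⟨q0, k0, l0⟩ := p.grow (m + e true + e false)
  obtain ⟨q1, k1, i1, l1⟩ := h1 0 q0
  obtain ⟨q2, k2, i2, l2⟩ := h1 1 q1
  obtain ⟨q3, k3, i3, l3⟩ := h1 2 q2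
  have n0 : ∀ i, m ≤ (q0.t i).length ∧ e i ≤ (q0.t i).length := fun i => by
    have := l0 i
    cases i <;> omega
  have n1 := fun i => (n0 i).2.trans (k1 i).length_le
  have n2 := fun i => (n1 i).trans (k2 i).length_le
  have n3 := fun i => (n2 i).trans (k3 i).length_le
  have k4 := fun i => (k1 i).trans ((k2 i).trans (k3 i))
  refine ⟨q3, fun i => (k0 i).trans (k4 i), fun i => (n0 i).1.trans (k4 i).length_le, ?_⟩
  by_contra h
  simp only [Good, not_exists, not_or, not_and] at h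
  have m1 := (l1 q3 (fun i => (k2 i).trans (k3 i)) (n1 _)).resolve_left ((h _).1 (n3 _))
  have m2 := (l2 q3 k3 (n2 _)).resolve_left ((h _).1 (n3 _))
  have m3 := (l3 q3 (fun _ => List.suffix_refl _) (n3 _)).resolve_left ((h _).1 (n3 _))
  cases i1 <;> cases i2 <;> cases i3 <;> first
    | exact (h _).2 _ _ (by decide) m1 m2
    | exact (h _).2 _ _ (by decide) m1 m3
    | exact (h _).2 _ _ (by decide) m2 m3

theorem OK.pairwise {i : Bool} : ∀ {t : List ℕ}, Φ.OK i t →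
    t.Pairwise fun z y => z ∈ Φ.N i y ∧ y < z
  | [], _ => .nil
  | _ :: _, h => .cons h.2.2 (OK.pairwise h.1)

theorem chain (Φ : Frame g) : ∃ (i : Bool) (τ : ℕ → List ℕ), (∀ k l, k ≤ l → τ k <:+ τ l) ∧
    (∀ k, k ≤ (τ k).length) ∧ (∀ k, (τ k).Pairwise fun z y => z ∈ Φ.N i y ∧ y < z) ∧
    ∀ e, (⋃ k, S.O e (τ k)).Finite ∨ ∃ k j j', j ≠ j' ∧ Has g j e (τ k) ∧ Has g j' e (τ k) := by
  choose F h1 h2 h3 using fun (k : ℕ) (p : St Φ) =>
    p.req (fun i => cond i k.unpair.1 k.unpair.2) (k + 1)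
  let σ : ℕ → St Φ := fun k => Nat.rec ⟨fun _ => [], Φ.A1, fun _ =>
    ⟨trivial, by simp, Φ.full, le_rfl⟩⟩ F k
  have h4 : ∀ i k l, k ≤ l → (σ k).t i <:+ (σ l).t i := fun i k l h => by
    induction h with
    | refl => exact List.suffix_refl _
    | step _ ih => exact ih.trans (h1 _ _ i)
  obtain ⟨i, hi⟩ : ∃ i, ∀ e, ∃ k, Good g e ((σ k).t i) := by
    by_contra h
    simp only [not_exists, not_forall] at h
    choose e he using h
    obtain ⟨i, h⟩ := h3 (Nat.pair (e true) (e false)) (σ _)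
    refine he i (Nat.pair (e true) (e false) + 1) ?_
    cases i <;> simpa using h
  refine ⟨i, fun k => (σ k).t i, h4 i, fun k => ?_, fun k => ((σ k).c i).1.pairwise, fun e => ?_⟩
  · cases k with
    | zero => exact Nat.zero_le _
    | succ k => exact h2 k _ i
  obtain ⟨k, ⟨h5, n, h6⟩ | h5⟩ := hi e
  swap
  · exact Or.inr ⟨k, h5⟩
  left
  by_cases h7 : ∃ l, k ≤ l ∧ ∃ x ∈ S.O e ((σ l).t i), n ≤ x
  · obtain ⟨l, h7, x, h8, h9⟩ := h7
    have h10 := fr_ext (h4 i k l h7) ((σ l).c i).1 h5 h6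
    refine (not_not.1 fun h => h10 (.of (Or.inl h)) : (S.L e ((σ l).t i)).Finite).subset
      (Set.iUnion_subset fun m => (S.mono' (h4 i m _ (le_max_left m l))).trans ?_)
    refine Set.Subset.trans (fun a ha => .of ha) (ok_ind (P := fun s => ¬ D0 (S.T e n) s ∧
      S.L e s ⊆ S.L e ((σ l).t i)) (h4 i l _ (le_max_right m l)) ((σ _).c i).1 ⟨h10, le_rfl⟩
      fun s y hs hy h11 => ?_).2
    have h12 := hy e (h5.trans ((h4 i k l h7).trans hs).length_le)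
    exact ⟨fun h => h12.2 ⟨n, h11.1⟩ (der_anti (Nat.find_min' _ h11.1) h),
      (h12.1 fun h => h11.1 (.of (Or.inr ⟨h, x, S.mono' hs h8, h9⟩))).trans h11.2⟩
  · refine (Set.finite_Iio n).subset (Set.iUnion_subset fun m x hx => not_le.1 fun h => h7
      ⟨max m k, le_max_right _ _, x, S.mono' (h4 i m _ (le_max_left m k)) hx, h⟩)

end Frame

theorem exists_frame {S : Sys} (g : Gen S) (G : ℕ → ℕ → Bool) :
    ∃ Φ : Frame g, ∀ i, ∃ c, ∀ y, ∀ z ∈ Φ.N i y, G y z = c := by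
  by_cases h : ∃ c A, g.Full A ∧ ∀ x ∈ A, ¬ g.Full (A ∩ {z | G x z = c})
  · obtain ⟨c, A, h1, h2⟩ := h
    refine ⟨⟨fun _ y => {z | G y z = !c}, A, h1, fun _ A' h3 h4 => ?_, fun y hy h3 =>
      h2 y hy (h3.mono fun z hz => ⟨hz.1, by simpa using hz.2⟩)⟩, fun _ => ⟨!c, fun _ _ h => h⟩⟩
    obtain ⟨x, hx⟩ := h4.nonempty
    refine ⟨x, hx, Full.union (h4.mono fun z hz => ?_) (h2 x (h3 hx))⟩
    by_cases h5 : G x z = c
    · exact Or.inl ⟨h3 hz, h5⟩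
    · exact Or.inr ⟨hz, Bool.eq_not_iff.2 h5⟩
  · simp only [not_exists, not_and, not_forall, not_not] at h
    refine ⟨⟨fun c y => {z | G y z = c}, Set.univ, full_univ, fun c A _ h1 => ?_, fun y _ h1 => ?_⟩,
      fun c => ⟨c, fun _ _ h => h⟩⟩
    · obtain ⟨x, h2, h3⟩ := h c A h1
      exact ⟨x, h2, h3⟩
    · obtain ⟨z, -, hz⟩ := h1.nonempty
      cases h2 : G y z <;> simp [h2] at hz

end Pool.Agent.H.MP_f4da35_lc
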